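import Pool.Agent.W564.SC.Defs2

/-!
# Project SC, part MET: a distance on a closed manifold
-/

open scoped Manifold ContDiff Topology
open Filter Set Metric

universe u

namespace Pool.Agent.W756.SC

open Pool.Agent.H718R2.G Pool.Agent.W564.SC

/-- from local to global inequalities -/
theorem glob {X : Type*} [TopologicalSpace X] {S : Set X} (hS : IsCompact S) (F D : X → ℝ)
    (hD : ∀ x, 0 ≤ D x) (h : ∀ x ∈ S, ∃ L : ℝ, ∀ᶠ y in 𝓝 x, F y ≤ L * D y) :
    ∃ L : ℝ, 1 ≤ L ∧ ∀ x ∈ S, F x ≤ L * D x := by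
  refine hS.induction_on (p := fun T => ∃ L : ℝ, 1 ≤ L ∧ ∀ x ∈ T, F x ≤ L * D x)
    ⟨1, le_rfl, fun x hx => absurd hx (Set.notMem_empty x)⟩ ?_ ?_ ?_
  · rintro s t hst ⟨L, h1, h2⟩
    exact ⟨L, h1, fun x hx => h2 x (hst hx)⟩
  · rintro s t ⟨L, h1, h2⟩ ⟨L', h1', h2'⟩
    refine ⟨max L L', h1.trans (le_max_left _ _), ?_⟩
    rintro x (hx | hx)
    · exact (h2 x hx).trans (mul_le_mul_of_nonneg_right (le_max_left _ _) (hD x))
    · exact (h2' x hx).trans (mul_le_mul_of_nonneg_right (le_max_right _ _) (hD x))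
  · intro x hx
    obtain ⟨L, hL⟩ := h x hx
    refine ⟨{y | F y ≤ max L 1 * D y}, mem_nhdsWithin_of_mem_nhds ?_, max L 1, le_max_right _ _,
      fun y hy => hy⟩
    filter_upwards [hL] with y hy
    exact hy.trans (mul_le_mul_of_nonneg_right (le_max_left _ _) (hD y))

/-- the inequality where the right side is positive -/
theorem offdiag {X : Type*} [TopologicalSpace X] {F D : X → ℝ} {x : X} (hF : ContinuousAt F x)
    (hD : ContinuousAt D x) (h : 0 < D x) : ∃ L : ℝ, ∀ᶠ y in 𝓝 x, F y ≤ L * D y := by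
  refine ⟨(|F x| + 1) / (D x / 2), ?_⟩
  have h1 : ∀ᶠ y in 𝓝 x, F y < F x + 1 := hF.eventually_lt_const (by linarith)
  have h2 : ∀ᶠ y in 𝓝 x, D x / 2 < D y := hD.eventually_const_lt (by linarith)
  filter_upwards [h1, h2] with y h3 h4
  have h5 : 0 < D x / 2 := by linarith
  rw [div_mul_eq_mul_div, le_div_iff₀ h5]
  have h6 := le_abs_self (F x)
  have h7 := abs_nonneg (F x)
  rcases le_total 0 (F y) with h8 | h8
  · have : F y * (D x / 2) ≤ (|F x| + 1) * D y :=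
      mul_le_mul (by linarith) h4.le h5.le (by linarith)
    exact this
  · have h9 : F y * (D x / 2) ≤ 0 := mul_nonpos_of_nonpos_of_nonneg h8 h5.le
    have h10 : 0 ≤ (|F x| + 1) * D y := mul_nonneg (by linarith) (by linarith)
    linarith

section strict

variable {E F : Type*} [NormedAddCommGroup E] [NormedSpace ℝ E] [NormedAddCommGroup F]
  [NormedSpace ℝ F]

theorem strict_le {f : E → F} {f' : E →L[ℝ] F} {x : E} (h : HasStrictFDerivAt f f' x) :
    ∀ᶠ p : E × E in 𝓝 (x, x), ‖f p.1 - f p.2‖ ≤ (‖f'‖ + 1) * ‖p.1 - p.2‖ := by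
  have h1 := h.isLittleO.def one_pos
  filter_upwards [h1] with p hp
  have h2 : f p.1 - f p.2 = (f p.1 - f p.2 - f' (p.1 - p.2)) + f' (p.1 - p.2) := by abel
  rw [h2]
  refine (norm_add_le _ _).trans ?_
  have h3 := f'.le_opNorm (p.1 - p.2)
  linarith

theorem strict_ge [FiniteDimensional ℝ E] {f : E → F} {f' : E →L[ℝ] F} {x : E}
    (h : HasStrictFDerivAt f f' x) (hf : Function.Injective f') :
    ∃ L : ℝ, 0 ≤ L ∧ ∀ᶠ p : E × E in 𝓝 (x, x), ‖p.1 - p.2‖ ≤ L * ‖f p.1 - f p.2‖ := by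
  obtain ⟨K, hK, hanti⟩ := (f' : E →ₗ[ℝ] F).exists_antilipschitzWith (LinearMap.ker_eq_bot.2 hf)
  have hK' : (0 : ℝ) < K := by exact_mod_cast hK
  refine ⟨2 * K, by positivity, ?_⟩
  have h1 := h.isLittleO.def (show (0 : ℝ) < 1 / (2 * K) by positivity)
  filter_upwards [h1] with p hp
  have h2 : ‖p.1 - p.2‖ ≤ K * ‖f' (p.1 - p.2)‖ := by
    have := hanti.le_mul_dist (p.1 - p.2) 0
    rw [dist_zero_right] at this
    simpa using this
  have h3 : ‖f' (p.1 - p.2)‖ ≤ ‖f p.1 - f p.2‖ + ‖f p.1 - f p.2 - f' (p.1 - p.2)‖ := by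
    have : f' (p.1 - p.2) = (f p.1 - f p.2) - (f p.1 - f p.2 - f' (p.1 - p.2)) := by abel
    calc ‖f' (p.1 - p.2)‖ = ‖(f p.1 - f p.2) - (f p.1 - f p.2 - f' (p.1 - p.2))‖ := by rw [← this]
      _ ≤ _ := norm_sub_le _ _
  have h4 : (K : ℝ) * (1 / (2 * K) * ‖p.1 - p.2‖) = ‖p.1 - p.2‖ / 2 := by
    field_simp
  have h5 : (K : ℝ) * ‖f' (p.1 - p.2)‖ ≤ K * (‖f p.1 - f p.2‖ + 1 / (2 * K) * ‖p.1 - p.2‖) :=
    mul_le_mul_of_nonneg_left (h3.trans (by linarith)) hK'.le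
  rw [mul_add, h4] at h5
  linarith

end strict

section emb

variable {n q : ℕ} {N : Type u} [TopologicalSpace N] [T2Space N] [CompactSpace N]
  [ChartedSpace (V n) N] [IsManifold (𝓡 n) ∞ N] {e : N → EuclideanSpace ℝ (Fin q)}

theorem emb_strict (he : ContMDiff (𝓡 n) (𝓡 q) ∞ e)
    (hinj : ∀ y, Function.Injective (mfderiv (𝓡 n) (𝓡 q) e y))
    (φ : OpenPartialHomeomorph N (V n)) (hφ : φ ∈ IsManifold.maximalAtlas (𝓡 n) ∞ N)
    (x : V n) (hx : x ∈ φ.target) :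
    ∃ f' : V n →L[ℝ] EuclideanSpace ℝ (Fin q),
      HasStrictFDerivAt (fun x => e (φ.symm x)) f' x ∧ Function.Injective f' := by
  have hs : ContMDiffAt (𝓡 n) (𝓡 n) ∞ φ.symm x :=
    (contMDiffOn_symm_of_mem_maximalAtlas hφ).contMDiffAt (φ.open_target.mem_nhds hx)
  have hy : φ.symm x ∈ φ.source := φ.map_target hx
  have hf : ContMDiffAt (𝓡 n) (𝓡 n) ∞ φ (φ.symm x) :=
    (contMDiffOn_of_mem_maximalAtlas hφ).contMDiffAt (φ.open_source.mem_nhds hy)
  have hc : ContMDiffAt (𝓡 n) (𝓡 q) ∞ (e ∘ φ.symm) x := he.contMDiffAt.comp x hs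
  have hc' : ContDiffAt ℝ ∞ (e ∘ φ.symm) x := contMDiffAt_iff_contDiffAt.1 hc
  refine ⟨fderiv ℝ (e ∘ φ.symm) x, hc'.hasStrictFDerivAt (by simp), ?_⟩
  have hds : MDifferentiableAt (𝓡 n) (𝓡 n) φ.symm x := hs.mdifferentiableAt (by simp)
  have hdf : MDifferentiableAt (𝓡 n) (𝓡 n) φ (φ.symm x) := hf.mdifferentiableAt (by simp)
  have hde : MDifferentiableAt (𝓡 n) (𝓡 q) e (φ.symm x) :=
    he.contMDiffAt.mdifferentiableAt (by simp)
  have h1 : mfderiv (𝓡 n) (𝓡 q) (e ∘ φ.symm) x =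
      (mfderiv (𝓡 n) (𝓡 q) e (φ.symm x)).comp (mfderiv (𝓡 n) (𝓡 n) φ.symm x) :=
    mfderiv_comp x hde hds
  have h2 : mfderiv (𝓡 n) (𝓡 n) (φ ∘ φ.symm) x =
      (mfderiv (𝓡 n) (𝓡 n) φ (φ.symm x)).comp (mfderiv (𝓡 n) (𝓡 n) φ.symm x) :=
    mfderiv_comp x hdf hds
  have h3 : mfderiv (𝓡 n) (𝓡 n) (φ ∘ φ.symm) x = ContinuousLinearMap.id ℝ _ := by
    have h4 : (φ ∘ φ.symm) =ᶠ[𝓝 x] id := by
      filter_upwards [φ.open_target.mem_nhds hx] with p hp
      exact φ.right_inv hp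
    rw [h4.mfderiv_eq]
    exact mfderiv_id
  have h5 : Function.Injective (mfderiv (𝓡 n) (𝓡 n) φ.symm x) := by
    intro v w hvw
    have h6 : mfderiv (𝓡 n) (𝓡 n) (φ ∘ φ.symm) x v = mfderiv (𝓡 n) (𝓡 n) (φ ∘ φ.symm) x w := by
      rw [h2]
      show mfderiv (𝓡 n) (𝓡 n) φ (φ.symm x) (mfderiv (𝓡 n) (𝓡 n) φ.symm x v) =
        mfderiv (𝓡 n) (𝓡 n) φ (φ.symm x) (mfderiv (𝓡 n) (𝓡 n) φ.symm x w)
      rw [hvw]
    rw [h3] at h6
    exact h6
  rw [← mfderiv_eq_fderiv, h1]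
  exact (hinj _).comp h5

/-- Lipschitz estimates with a parameter -/
theorem lip (he : ContMDiff (𝓡 n) (𝓡 q) ∞ e) (hei : Function.Injective e)
    (hinj : ∀ y, Function.Injective (mfderiv (𝓡 n) (𝓡 q) e y))
    {W : Type*} [NormedAddCommGroup W] [NormedSpace ℝ W] (k : ℕ) (g : V k × N → W)
    (hg : ContMDiff ((𝓡 k).prod (𝓡 n)) 𝓘(ℝ, W) 1 g) (K : Set (V k)) (hK : IsCompact K) :
    ∃ L : ℝ, ∀ γ ∈ K, ∀ y y', ‖g (γ, y) - g (γ, y')‖ ≤ L * ‖e y - e y'‖ := by
  have hce : Continuous e := he.continuous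
  have hcg : Continuous g := hg.continuous
  obtain ⟨L, -, hL⟩ := glob (hK.prod (isCompact_univ (X := N × N)))
    (fun p => ‖g (p.1, p.2.1) - g (p.1, p.2.2)‖) (fun p => ‖e p.2.1 - e p.2.2‖)
    (fun p => norm_nonneg _) (by
    rintro ⟨γ, y, y'⟩ -
    by_cases hyy : y = y'
    · subst hyy
      set φ := chartAt (V n) y with hφ
      have hys : y ∈ φ.source := mem_chart_source _ _
      have hφm : φ ∈ IsManifold.maximalAtlas (𝓡 n) ∞ N := IsManifold.chart_mem_maximalAtlas _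
      have hx : φ y ∈ φ.target := φ.map_source hys
      obtain ⟨f', hf1, hf2⟩ := emb_strict he hinj φ hφm (φ y) hx
      obtain ⟨L₁, hL₁, h1⟩ := strict_ge hf1 hf2
      have hc : ContMDiffAt 𝓘(ℝ, V k × V n) ((𝓡 k).prod (𝓡 n)) 1
          (fun p : V k × V n => (p.1, φ.symm p.2)) (γ, φ y) := by
        have hs : ContMDiffAt (𝓡 n) (𝓡 n) ∞ φ.symm (φ y) :=
          (contMDiffOn_symm_of_mem_maximalAtlas hφm).contMDiffAt (φ.open_target.mem_nhds hx)
        refine ContMDiffAt.prodMk ?_ ?_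
        · exact contDiff_fst.contMDiff.contMDiffAt
        · have h5 : ContMDiffAt 𝓘(ℝ, V k × V n) (𝓡 n) 1 (fun p : V k × V n => p.2) (γ, φ y) :=
            contDiff_snd.contMDiff.contMDiffAt
          exact ContMDiffAt.comp (γ, φ y) (g := φ.symm) (hs.of_le (by simp)) h5
      have hgc : ContDiffAt ℝ 1 (fun p : V k × V n => g (p.1, φ.symm p.2)) (γ, φ y) := by
        rw [← contMDiffAt_iff_contDiffAt]
        exact ContMDiffAt.comp (γ, φ y) (hg.contMDiffAt) hc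
      have h2 := strict_le (hgc.hasStrictFDerivAt (by simp))
      obtain ⟨C, hC⟩ : ∃ C : ℝ, C = ‖fderiv ℝ (fun p : V k × V n => g (p.1, φ.symm p.2))
        (γ, φ y)‖ + 1 := ⟨_, rfl⟩
      rw [← hC] at h2
      have hC0 : 0 ≤ C := by rw [hC]; positivity
      have hcφ : ContinuousAt φ y := φ.continuousAt hys
      have t1 : Tendsto (fun p : V k × (N × N) => (φ p.2.1, φ p.2.2)) (𝓝 (γ, (y, y)))
          (𝓝 (φ y, φ y)) := by
        refine Tendsto.prodMk_nhds ?_ ?_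
        · exact hcφ.tendsto.comp ((continuous_fst.comp continuous_snd).tendsto (γ, (y, y)))
        · exact hcφ.tendsto.comp ((continuous_snd.comp continuous_snd).tendsto (γ, (y, y)))
      have t2 : Tendsto (fun p : V k × (N × N) => ((p.1, φ p.2.1), (p.1, φ p.2.2)))
          (𝓝 (γ, (y, y))) (𝓝 ((γ, φ y), (γ, φ y))) := by
        refine Tendsto.prodMk_nhds (Tendsto.prodMk_nhds ?_ ?_) (Tendsto.prodMk_nhds ?_ ?_)
        · exact continuous_fst.tendsto (γ, (y, y))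
        · exact hcφ.tendsto.comp ((continuous_fst.comp continuous_snd).tendsto (γ, (y, y)))
        · exact continuous_fst.tendsto (γ, (y, y))
        · exact hcφ.tendsto.comp ((continuous_snd.comp continuous_snd).tendsto (γ, (y, y)))
      have h3 : ∀ᶠ p : V k × (N × N) in 𝓝 (γ, (y, y)), p.2.1 ∈ φ.source :=
        ((continuous_fst.comp continuous_snd).tendsto (γ, (y, y))).eventually
          (φ.open_source.mem_nhds hys)
      have h4 : ∀ᶠ p : V k × (N × N) in 𝓝 (γ, (y, y)), p.2.2 ∈ φ.source :=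
        ((continuous_snd.comp continuous_snd).tendsto (γ, (y, y))).eventually
          (φ.open_source.mem_nhds hys)
      refine ⟨C * L₁, ?_⟩
      filter_upwards [t1.eventually h1, t2.eventually h2, h3, h4] with p g1 g2 g3 g4
      replace g1 : ‖φ p.2.1 - φ p.2.2‖ ≤
          L₁ * ‖e (φ.symm (φ p.2.1)) - e (φ.symm (φ p.2.2))‖ := g1
      replace g2 : ‖g (p.1, φ.symm (φ p.2.1)) - g (p.1, φ.symm (φ p.2.2))‖ ≤
          C * ‖((p.1, φ p.2.1) : V k × V n) - (p.1, φ p.2.2)‖ := g2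
      rw [φ.left_inv g3, φ.left_inv g4] at g1 g2
      have g5 : ‖((p.1, φ p.2.1) : V k × V n) - (p.1, φ p.2.2)‖ = ‖φ p.2.1 - φ p.2.2‖ := by
        rw [Prod.mk_sub_mk, sub_self, Prod.norm_mk, norm_zero]
        exact max_eq_right (norm_nonneg _)
      rw [g5] at g2
      calc ‖g (p.1, p.2.1) - g (p.1, p.2.2)‖ ≤ C * ‖φ p.2.1 - φ p.2.2‖ := g2
        _ ≤ C * (L₁ * ‖e p.2.1 - e p.2.2‖) := mul_le_mul_of_nonneg_left g1 hC0
        _ = _ := by ring
    · refine offdiag ?_ ?_ ?_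
      · exact (by fun_prop : Continuous fun p : V k × (N × N) =>
          ‖g (p.1, p.2.1) - g (p.1, p.2.2)‖).continuousAt
      · exact (by fun_prop : Continuous fun p : V k × (N × N) =>
          ‖e p.2.1 - e p.2.2‖).continuousAt
      · exact norm_pos_iff.2 (sub_ne_zero.2 fun h => hyy (hei h)))
  exact ⟨L, fun γ hγ y y' => hL (γ, (y, y')) ⟨hγ, Set.mem_univ _⟩⟩

/-- the estimates in a good chart -/
theorem bil (he : ContMDiff (𝓡 n) (𝓡 q) ∞ e) (hei : Function.Injective e)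
    (hinj : ∀ y, Function.Injective (mfderiv (𝓡 n) (𝓡 q) e y))
    (χ : OpenPartialHomeomorph N (V n)) (z : N) (hχ : GoodChart n N χ z) : ∃ L : ℝ, 1 ≤ L ∧
    ∀ y ∈ χ.source, ∀ y' ∈ χ.source, ‖χ y‖ ≤ 1 / 2 → ‖χ y'‖ ≤ 1 / 2 →
      ‖e y - e y'‖ ≤ L * ‖χ y - χ y'‖ ∧ ‖χ y - χ y'‖ ≤ L * ‖e y - e y'‖ := by
  have hcomp : IsCompact (closedBall (0 : V n) (1 / 2) ×ˢ closedBall (0 : V n) (1 / 2)) :=
    (isCompact_closedBall _ _).prod (isCompact_closedBall _ _)
  have htg : ∀ x ∈ closedBall (0 : V n) (1 / 2), x ∈ χ.target := fun x hx =>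
    hχ.ball (closedBall_subset_closedBall (by norm_num) hx)
  have hce : Continuous e := he.continuous
  have hcs : ∀ x ∈ closedBall (0 : V n) (1 / 2), ContinuousAt (fun x => e (χ.symm x)) x :=
    fun x hx => ContinuousAt.comp (g := e) hce.continuousAt (χ.symm.continuousAt (htg x hx))
  have hD : ∀ p ∈ closedBall (0 : V n) (1 / 2) ×ˢ closedBall (0 : V n) (1 / 2),
      ContinuousAt (fun p : V n × V n => ‖e (χ.symm p.1) - e (χ.symm p.2)‖) p := by
    rintro ⟨x, x'⟩ ⟨hx, hx'⟩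
    refine ContinuousAt.norm (ContinuousAt.sub ?_ ?_)
    · exact ContinuousAt.comp (g := fun x => e (χ.symm x)) (f := Prod.fst) (hcs x hx)
        continuousAt_fst
    · exact ContinuousAt.comp (g := fun x => e (χ.symm x)) (f := Prod.snd) (hcs x' hx')
        continuousAt_snd
  obtain ⟨L₁, h1, hL₁⟩ := glob hcomp
    (fun p => ‖e (χ.symm p.1) - e (χ.symm p.2)‖) (fun p => ‖p.1 - p.2‖)
    (fun p => norm_nonneg _) (by
    rintro ⟨x, x'⟩ ⟨hx, hx'⟩
    by_cases hxx : x = x'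
    · subst hxx
      obtain ⟨f', hf1, hf2⟩ := emb_strict he hinj χ hχ.mem x (htg x hx)
      exact ⟨_, strict_le hf1⟩
    · refine offdiag (hD (x, x') ⟨hx, hx'⟩) ?_ ?_
      · exact (by fun_prop : Continuous fun p : V n × V n => ‖p.1 - p.2‖).continuousAt
      · exact norm_pos_iff.2 (sub_ne_zero.2 hxx))
  obtain ⟨L₂, h2, hL₂⟩ := glob hcomp
    (fun p => ‖p.1 - p.2‖) (fun p => ‖e (χ.symm p.1) - e (χ.symm p.2)‖)
    (fun p => norm_nonneg _) (by
    rintro ⟨x, x'⟩ ⟨hx, hx'⟩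
    by_cases hxx : x = x'
    · subst hxx
      obtain ⟨f', hf1, hf2⟩ := emb_strict he hinj χ hχ.mem x (htg x hx)
      obtain ⟨L, -, hL⟩ := strict_ge hf1 hf2
      exact ⟨L, hL⟩
    · refine offdiag ?_ (hD (x, x') ⟨hx, hx'⟩) ?_
      · exact (by fun_prop : Continuous fun p : V n × V n => ‖p.1 - p.2‖).continuousAt
      · refine norm_pos_iff.2 (sub_ne_zero.2 fun h => hxx ?_)
        exact χ.symm.injOn (htg x hx) (htg x' hx') (hei h))
  refine ⟨max L₁ L₂, h1.trans (le_max_left _ _), fun y hy y' hy' hn hn' => ?_⟩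
  have hm : (χ y, χ y') ∈ closedBall (0 : V n) (1 / 2) ×ˢ closedBall (0 : V n) (1 / 2) :=
    ⟨mem_closedBall_zero_iff.2 hn, mem_closedBall_zero_iff.2 hn'⟩
  have g1 := hL₁ _ hm
  have g2 := hL₂ _ hm
  simp only at g1 g2
  rw [χ.left_inv hy, χ.left_inv hy'] at g1 g2
  exact ⟨g1.trans (mul_le_mul_of_nonneg_right (le_max_left _ _) (norm_nonneg _)),
    g2.trans (mul_le_mul_of_nonneg_right (le_max_right _ _) (norm_nonneg _))⟩

end emb

theorem met : S_MET.{u} := by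
  intro n N _ _ _ _ _
  obtain ⟨q, e, he, hcl, hinj⟩ := exists_embedding_euclidean_of_compact (I := 𝓡 n) (M := N)
  have hei : Function.Injective e := hcl.injective
  have hce : Continuous e := he.continuous
  refine ⟨fun y y' => ‖e y - e y'‖, ?_, fun y y' => norm_nonneg _, fun y y' => norm_sub_rev _ _,
    fun y y' y'' => ?_, ?_, fun χ z hχ => bil he hei hinj χ z hχ, fun g hg => ?_,
    fun k G hG K hK => ?_⟩
  · intro y y'
    rw [norm_eq_zero, sub_eq_zero]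
    exact hei.eq_iff
  · have : e y - e y'' = (e y - e y') + (e y' - e y'') := by abel
    show ‖e y - e y''‖ ≤ ‖e y - e y'‖ + ‖e y' - e y''‖
    rw [this]
    exact norm_add_le _ _
  · fun_prop
  · obtain ⟨L, hL⟩ := lip he hei hinj 0 (fun p : V 0 × N => g p.2) (hg.comp contMDiff_snd) {0}
      isCompact_singleton
    exact ⟨L, fun y y' => hL 0 rfl y y'⟩
  · exact lip he hei hinj k (fun p : V k × N => e (G p)) ((he.of_le (by simp)).comp hG) K hK

end Pool.Agent.W756.SC
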